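import Pool.Agent.Helper99.SI.StK

set_option autoImplicit false

/-!
# Project SI, module K14: replacing elements of L by elements of S modulo commutators
-/

namespace Pool.Agent.Helper16.SI

open Pool.Agent.Helper99.SI

variable {n : ℕ} {L : Type} [Ring L] [Algebra ℂ L] [StarRing L] [StarModule ℂ L] [Nontrivial L]

/-- tau as a linear functional. -/
noncomputable def k14tau (h3 : StK2) (D : Sys n L) (c : W n) (hc : c ≠ []) : L →ₗ[ℂ] ℂ where
  toFun y := D.tau c y
  map_add' y z := (h3 n L D c hc).2.1 y z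
  map_smul' a y := by
    rw [RingHom.id_apply, smul_eq_mul]
    exact (h3 n L D c hc).2.2.1 a y

theorem k14tau_apply (h3 : StK2) (D : Sys n L) (c : W n) (hc : c ≠ []) (y : L) :
    k14tau h3 D c hc y = D.tau c y := rfl

/-- The components of a commutator are killed by the trace. -/
theorem k14_comm (h1 : StA0) (h3 : StK2) (h4 : StK3) (D : Sys n L) (c : W n) (hc : c ≠ [])
    (i : ℤ) (u v : L) : D.tau c (D.b.p i (u * v)) = D.tau c (D.b.p i (v * u)) := by
  have hA := (h1 L D.b).1
  have hf1 : ∀ (y z : L), (Function.support fun l : ℤ => D.b.p l y * D.b.p (i - l) z).Finite := by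
    intro y z
    refine (D.b.fin y).subset ?_
    intro l hl h
    apply hl
    change D.b.p l y * D.b.p (i - l) z = 0
    rw [h, zero_mul]
  have hs : ∀ (y z : L), D.tau c (D.b.p i (y * z)) =
      ∑ᶠ l : ℤ, D.tau c (D.b.p l y * D.b.p (i - l) z) := by
    intro y z
    rw [hA i y z]
    exact (k14tau h3 D c hc).toAddMonoidHom.map_finsum (hf1 y z)
  rw [hs u v, hs v u]
  have he := finsum_comp_equiv (Equiv.subLeft i)
    (f := fun l : ℤ => D.tau c (D.b.p l v * D.b.p (i - l) u))
  rw [← he]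
  refine finsum_congr fun l => ?_
  simp only [Equiv.subLeft_apply, sub_sub_cancel]
  exact (h4 n L D c hc).1 _ _

/-- The embedding at a single word. -/
theorem k14_emb_single (D : Sys n L) (μ : W n) :
    D.emb (Finsupp.single μ 1) = D.w μ := by
  unfold Sys.emb
  rw [Finsupp.linearCombination_single, one_smul]

theorem hK14 (h1 : StA0) (h2 : StA1) (h3 : StK2) (h4 : StK3) (h5 : StK7) : StK14 := by
  intro n L _ _ _ _ _ D y
  have ht0 : ∀ (c : W n), c ≠ [] → D.tau c (0 : L) = 0 := by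
    intro c hc
    exact map_zero (k14tau h3 D c hc)
  have hadd : ∀ (c : W n), c ≠ [] → ∀ u v : L, D.tau c (u + v) = D.tau c u + D.tau c v :=
    fun c hc => (h3 n L D c hc).2.1
  have hsm : ∀ (c : W n), c ≠ [] → ∀ (a : ℂ) (u : L), D.tau c (a • u) = a * D.tau c u :=
    fun c hc => (h3 n L D c hc).2.2.1
  obtain ⟨a1, a2, a3, a4, -⟩ := h2 n L D
  have hy := D.span y
  induction hy using Submodule.span_induction with
  | mem z hz =>
    obtain ⟨q, rfl⟩ := hz
    obtain ⟨α, β⟩ := q
    change ∃ w : W n →₀ ℂ, ∀ (c : W n) (i : ℤ), c ≠ [] →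
      D.tau c (D.b.p i (D.w α * star (D.w β))) = D.tau c (D.b.p i (D.emb w))
    by_cases hβ : β <+: α
    · obtain ⟨μ, rfl⟩ := hβ
      refine ⟨Finsupp.single μ 1, fun c i hc => ?_⟩
      rw [k14_comm h1 h3 h4 D c hc i, a2, k14_emb_single]
    · by_cases hα : α <+: β
      · obtain ⟨ν, rfl⟩ := hα
        refine ⟨0, fun c i hc => ?_⟩
        rw [k14_comm h1 h3 h4 D c hc i, a3, h5 n L D ν c i hc, map_zero, map_zero, ht0 c hc]
      · refine ⟨0, fun c i hc => ?_⟩
        rw [k14_comm h1 h3 h4 D c hc i, a4 β α hβ hα, map_zero, map_zero, map_zero]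
  | zero =>
    refine ⟨0, fun c i _ => ?_⟩
    rw [map_zero, map_zero, map_zero]
  | add u v _ _ hu hv =>
    obtain ⟨wu, hwu⟩ := hu
    obtain ⟨wv, hwv⟩ := hv
    refine ⟨wu + wv, fun c i hc => ?_⟩
    rw [map_add, map_add, map_add, hadd c hc, hadd c hc, hwu c i hc, hwv c i hc]
  | smul a u _ hu =>
    obtain ⟨wu, hwu⟩ := hu
    refine ⟨a • wu, fun c i hc => ?_⟩
    rw [map_smul, map_smul, map_smul, hsm c hc, hsm c hc, hwu c i hc]

end Pool.Agent.Helper16.SI
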