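import Pool.Agent.Helper99.SI.StM

set_option autoImplicit false

/-!
# Project SI, module M0: Laurent polynomials over L
-/

namespace Pool.Agent.Helper16.SI

open Pool.Agent.Helper99.SI LaurentPolynomial

/-- Monomials. -/
noncomputable def sg {L : Type} [Ring L] (j : ℤ) (y : L) : LL L := AddMonoidAlgebra.single j y

section A

variable {L : Type} [Ring L]

theorem sg_eq (j : ℤ) (y : L) : sg j y = C y * T j := by
  unfold sg
  exact single_eq_C_mul_T y j

theorem sg_coeff (j k : ℤ) (y : L) : (sg j y).coeff k = if j = k then y else 0 := by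
  unfold sg
  rw [AddMonoidAlgebra.coeff_single, Finsupp.single_apply]

theorem sg_zero (y : L) : sg 0 y = C y := rfl

theorem sg_mul (j k : ℤ) (y z : L) : sg j y * sg k z = sg (j + k) (y * z) := by
  unfold sg
  rw [AddMonoidAlgebra.single_mul_single]

theorem sg_add (j : ℤ) (y z : L) : sg j (y + z) = sg j y + sg j z := by
  apply LaurentPolynomial.ext
  intro k
  rw [AddMonoidAlgebra.coeff_add, Finsupp.add_apply, sg_coeff, sg_coeff, sg_coeff]
  split_ifs <;> simp

theorem sg_zero' (j : ℤ) : sg j (0 : L) = 0 := by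
  apply LaurentPolynomial.ext
  intro k
  rw [sg_coeff]
  simp

theorem sg_sum {ι : Type} (s : Finset ι) (j : ℤ) (f : ι → L) :
    sg j (∑ i ∈ s, f i) = ∑ i ∈ s, sg j (f i) := by
  classical
  induction s using Finset.induction_on with
  | empty => simp [sg_zero']
  | insert a s ha ih => rw [Finset.sum_insert ha, Finset.sum_insert ha, sg_add, ih]

theorem sg_ind {P : LL L → Prop} (hadd : ∀ y z, P y → P z → P (y + z))
    (hs : ∀ j y, P (sg j y)) (y : LL L) : P y := by
  induction y using LaurentPolynomial.induction_on' with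
  | add p q hp hq => exact hadd p q hp hq
  | C_mul_T j a =>
    rw [← sg_eq]
    exact hs j a

end A

section B

variable {L : Type} [Ring L] [Algebra ℂ L]

theorem sg_smul (a : ℂ) (k j : ℤ) (y : L) :
    (sg k a : AA) • (sg j y : LL L) = sg (k + j) (a • y) := by
  rw [smul_def', sg_eq k a, cen_CT, ← sg_eq, sg_mul, Algebra.smul_def]

theorem evl_add (t : ℂ) (y z : LL L) : evl t (y + z) = evl t y + evl t z := by
  unfold evl
  rw [AddMonoidAlgebra.coeff_add]
  exact Finsupp.sum_add_index' (fun j => smul_zero _) (fun j a b => smul_add _ _ _)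

theorem evl_sg (t : ℂ) (j : ℤ) (y : L) : evl t (sg j y) = t ^ j • y := by
  unfold evl sg
  rw [AddMonoidAlgebra.coeff_single]
  exact Finsupp.sum_single_index (smul_zero _)

theorem evl_mul (t : ℂ) (ht : t ≠ 0) (y z : LL L) : evl t (y * z) = evl t y * evl t z := by
  revert z
  refine sg_ind (P := fun y => ∀ z, evl t (y * z) = evl t y * evl t z) ?_ ?_ y
  · intro p q hp hq z
    rw [add_mul, evl_add, hp, hq, evl_add, add_mul]
  · intro j c z
    refine sg_ind (P := fun z => evl t (sg j c * z) = evl t (sg j c) * evl t z) ?_ ?_ z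
    · intro p q hp hq
      rw [mul_add, evl_add, hp, hq, evl_add, mul_add]
    · intro k d
      rw [sg_mul, evl_sg, evl_sg, evl_sg, smul_mul_smul_comm, zpow_add₀ ht]

theorem evA_add (t : ℂ) (a b : AA) : evA t (a + b) = evA t a + evA t b := by
  unfold evA
  rw [AddMonoidAlgebra.coeff_add]
  exact Finsupp.sum_add_index' (fun j => zero_mul _) (fun j a b => add_mul _ _ _)

theorem evA_sg (t : ℂ) (j : ℤ) (a : ℂ) : evA t (sg j a) = a * t ^ j := by
  unfold evA sg
  rw [AddMonoidAlgebra.coeff_single]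
  exact Finsupp.sum_single_index (zero_mul _)

theorem evl_smul (t : ℂ) (ht : t ≠ 0) (a : AA) (y : LL L) :
    evl t (a • y) = evA t a • evl t y := by
  revert y
  refine sg_ind (P := fun a : AA => ∀ y : LL L, evl t (a • y) = evA t a • evl t y) ?_ ?_ a
  · intro p q hp hq y
    rw [add_smul, evl_add, hp, hq, evA_add, add_smul]
  · intro j c y
    refine sg_ind (P := fun y : LL L => evl t ((sg j c : AA) • y) = evA t (sg j c) • evl t y)
      ?_ ?_ y
    · intro p q hp hq
      rw [smul_add, evl_add, hp, hq, evl_add, smul_add]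
    · intro k d
      rw [sg_smul, evl_sg, evl_sg, evA_sg, smul_smul, smul_smul, zpow_add₀ ht]
      congr 1
      ring

/-- Divisibility of T j - t^j by T 1 - t for natural exponents. -/
theorem div_nat (t : ℂ) (n : ℕ) : ∃ q : AA, (T (n : ℤ) : AA) - C (t ^ n) = (T 1 - C t) * q := by
  have h : (T 1 - C t : AA) ∣ (T 1 : AA) ^ n - (C t : AA) ^ n := sub_dvd_pow_sub_pow _ _ _
  obtain ⟨q, hq⟩ := h
  refine ⟨q, ?_⟩
  rw [← hq, T_pow, mul_one, ← map_pow]

theorem div_int (t : ℂ) (ht : t ≠ 0) (j : ℤ) :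
    ∃ q : AA, (T j : AA) - C (t ^ j) = (T 1 - C t) * q := by
  obtain ⟨n, rfl | rfl⟩ := j.eq_nat_or_neg
  · obtain ⟨q, hq⟩ := div_nat t n
    exact ⟨q, by rw [zpow_natCast]; exact hq⟩
  · obtain ⟨q, hq⟩ := div_nat t n
    refine ⟨-(T (-(n : ℤ)) * C ((t ^ n)⁻¹)) * q, ?_⟩
    have h1 : (T (-(n : ℤ)) : AA) * T (n : ℤ) = 1 := by
      rw [← T_add, neg_add_cancel, T_zero]
    have h2 : (C ((t ^ n)⁻¹) : AA) * C (t ^ n) = 1 := by
      rw [← map_mul, inv_mul_cancel₀ (pow_ne_zero n ht), map_one]
    rw [zpow_neg, zpow_natCast]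
    have h3 : (T (-(n : ℤ)) : AA) - C ((t ^ n)⁻¹)
        = -(T (-(n : ℤ)) * C ((t ^ n)⁻¹)) * (T (n : ℤ) - C (t ^ n)) := by
      linear_combination (C ((t ^ n)⁻¹) : AA) * h1 - (T (-(n : ℤ)) : AA) * h2
    rw [h3, hq]
    ring

theorem div_all (t : ℂ) (ht : t ≠ 0) (y : LL L) :
    ∃ w : LL L, y = C (evl t y) + (T 1 - C t : AA) • w := by
  refine sg_ind (P := fun y : LL L => ∃ w : LL L, y = C (evl t y) + (T 1 - C t : AA) • w)
    ?_ ?_ y
  · rintro p q ⟨w, hw⟩ ⟨v, hv⟩
    refine ⟨w + v, ?_⟩
    rw [evl_add, map_add, smul_add]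
    nth_rewrite 1 [hw, hv]
    abel
  · intro j c
    obtain ⟨q, hq⟩ := div_int t ht j
    refine ⟨q • sg 0 c, ?_⟩
    rw [← mul_smul, ← hq, sub_smul, evl_sg]
    have h1 : (T j : AA) = sg j 1 := rfl
    have h2 : (C (t ^ j) : AA) = sg 0 (t ^ j) := rfl
    rw [h1, h2, sg_smul, sg_smul, one_smul, add_zero, add_zero, ← sg_zero]
    abel

end B

section D

variable {L : Type} [Ring L] [Algebra ℂ L] [StarRing L] (B : ZGr L)

theorem bt_add (y z : L) : B.bt (y + z) = B.bt y + B.bt z := by
  apply LaurentPolynomial.ext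
  intro j
  rw [AddMonoidAlgebra.coeff_add, Finsupp.add_apply, ZGr.bt_coeff, ZGr.bt_coeff, ZGr.bt_coeff,
    map_add]

theorem bt_zero : B.bt (0 : L) = 0 := by
  apply LaurentPolynomial.ext
  intro j
  rw [ZGr.bt_coeff, map_zero]
  rfl

theorem bt_sum {ι : Type} (s : Finset ι) (f : ι → L) :
    B.bt (∑ i ∈ s, f i) = ∑ i ∈ s, B.bt (f i) := by
  classical
  induction s using Finset.induction_on with
  | empty => simp [bt_zero]
  | insert a s ha ih => rw [Finset.sum_insert ha, Finset.sum_insert ha, bt_add, ih]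

/-- bt of an element which is homogeneous. -/
theorem bt_hom (i : ℤ) (y : L) (h : B.p i y = y) : B.bt y = sg i y := by
  apply LaurentPolynomial.ext
  intro j
  rw [ZGr.bt_coeff, sg_coeff, ← h, B.pp]
  by_cases hij : i = j
  · rw [if_pos hij.symm, if_pos hij]
  · rw [if_neg (Ne.symm hij), if_neg hij]

theorem bt_p (i : ℤ) (y : L) : B.bt (B.p i y) = sg i (B.p i y) := by
  apply bt_hom
  rw [B.pp, if_pos rfl]

theorem sum_p (y : L) : ∑ i ∈ (B.fin y).toFinset, B.p i y = y := by
  conv_rhs => rw [← B.sum y]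
  symm
  apply finsum_eq_sum_of_support_subset
  intro j hj
  simpa using hj

theorem bt_smul (c : ℂ) (y : L) : B.bt (c • y) = (C c : AA) • B.bt y := by
  have h1 : (C c : AA) = sg 0 c := rfl
  have h2 : B.bt y = ∑ i ∈ (B.fin y).toFinset, sg i (B.p i y) := by
    conv_lhs => rw [← sum_p B y, bt_sum]
    apply Finset.sum_congr rfl
    intro i _
    exact bt_p B i y
  have h3 : B.bt (c • y) = ∑ i ∈ (B.fin y).toFinset, sg i (c • B.p i y) := by
    conv_lhs => rw [← sum_p B y, Finset.smul_sum, bt_sum]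
    apply Finset.sum_congr rfl
    intro i _
    apply bt_hom
    rw [map_smul, B.pp, if_pos rfl]
  rw [h2, h3, h1, Finset.smul_sum]
  apply Finset.sum_congr rfl
  intro i _
  rw [sg_smul, zero_add]

theorem bt_mul (y z : L) : B.bt (y * z) = B.bt y * B.bt z := by
  conv_lhs => rw [← sum_p B y, ← sum_p B z]
  conv_rhs => rw [← sum_p B y, ← sum_p B z]
  rw [Finset.sum_mul_sum, bt_sum, bt_sum, bt_sum, Finset.sum_mul_sum]
  apply Finset.sum_congr rfl
  intro i _
  rw [bt_sum]
  apply Finset.sum_congr rfl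
  intro j _
  rw [bt_p, bt_p, sg_mul]
  apply bt_hom
  exact B.mul i j y z

theorem bt_one : B.bt (1 : L) = 1 := by
  rw [bt_hom B 0 1 B.one, sg_zero, map_one]

theorem C_eq (y : L) : (C y : LL L) = ∑ᶠ j : ℤ, (T (-j) : AA) • B.bt (B.p j y) := by
  have h1 : ∀ j : ℤ, (T (-j) : AA) • B.bt (B.p j y) = C (B.p j y) := by
    intro j
    have h2 : (T (-j) : AA) = sg (-j) 1 := rfl
    rw [bt_p, h2, sg_smul, one_smul, neg_add_cancel, sg_zero]
  simp only [h1]
  have h3 : ∑ᶠ j : ℤ, (C (B.p j y) : LL L) = ∑ i ∈ (B.fin y).toFinset, C (B.p i y) := by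
    apply finsum_eq_sum_of_support_subset
    intro j hj
    simp only [Set.Finite.coe_toFinset, Set.mem_setOf_eq]
    intro h
    apply hj
    change (C (B.p j y) : LL L) = 0
    rw [h, map_zero]
  rw [h3, ← map_sum, sum_p]

theorem evl_bt (t : ℂ) (y : L) : evl t (B.bt y) = B.ev t y := by
  change evl t (B.bt y) = ∑ᶠ j : ℤ, t ^ j • B.p j y
  have h3 : ∑ᶠ j : ℤ, t ^ j • B.p j y = ∑ i ∈ (B.fin y).toFinset, t ^ i • B.p i y := by
    apply finsum_eq_sum_of_support_subset
    intro j hj
    simp only [Set.Finite.coe_toFinset, Set.mem_setOf_eq]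
    intro h
    apply hj
    change t ^ j • B.p j y = 0
    rw [h, smul_zero]
  rw [h3]
  unfold evl
  apply Finset.sum_congr
  · ext j
    simp only [Finsupp.mem_support_iff, ZGr.bt_coeff, Set.Finite.mem_toFinset, Set.mem_setOf_eq]
  · intro j _
    rw [ZGr.bt_coeff]

/-- The opposite grading. -/
noncomputable def opp : ZGr L where
  p j := B.p (-j)
  fin y := by
    have h := (B.fin y).preimage (f := fun j : ℤ => -j) (neg_injective.injOn)
    exact h
  sum y := by
    have h := finsum_comp_equiv (Equiv.neg ℤ) (f := fun j : ℤ => B.p j y)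
    simp only [Equiv.neg_apply] at h
    rw [h]
    exact B.sum y
  pp i j y := by
    rw [B.pp]
    simp only [neg_inj]
  mul i j y z := by
    rw [neg_add]
    exact B.mul _ _ _ _
  one := by
    rw [neg_zero]
    exact B.one
  st j y := by
    exact B.st (-j) y

theorem opp_p (j : ℤ) (y : L) : (opp B).p j y = B.p (-j) y := rfl

/-- The twist as an additive map. -/
noncomputable def tw (y : LL L) : LL L := y.coeff.sum fun j c => T j * B.bt c

theorem tw_add (y z : LL L) : tw B (y + z) = tw B y + tw B z := by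
  unfold tw
  rw [AddMonoidAlgebra.coeff_add]
  refine Finsupp.sum_add_index' (fun j => ?_) (fun j a b => ?_)
  · rw [bt_zero, mul_zero]
  · rw [bt_add, mul_add]

theorem tw_sg (j : ℤ) (y : L) : tw B (sg j y) = (T j : AA) • B.bt y := by
  have h1 : tw B (sg j y) = T j * B.bt y := by
    unfold tw sg
    rw [AddMonoidAlgebra.coeff_single]
    refine Finsupp.sum_single_index ?_
    rw [bt_zero, mul_zero]
  have h2 : (T j : AA) = C 1 * T j := by rw [map_one, one_mul]
  rw [h1, h2, smul_def', cen_CT, map_one, map_one, one_mul]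

theorem tw_smul (a : AA) (y : LL L) : tw B (a • y) = a • tw B y := by
  revert y
  refine sg_ind (P := fun a : AA => ∀ y : LL L, tw B (a • y) = a • tw B y) ?_ ?_ a
  · intro p q hp hq y
    rw [add_smul, tw_add, hp, hq, add_smul]
  · intro j c y
    refine sg_ind (P := fun y : LL L => tw B ((sg j c : AA) • y) = (sg j c : AA) • tw B y)
      ?_ ?_ y
    · intro p q hp hq
      rw [smul_add, tw_add, hp, hq, tw_add, smul_add]
    · intro k d
      rw [sg_smul, tw_sg, tw_sg, bt_smul, smul_smul, smul_smul]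
      congr 1
      have h1 : (C c : AA) = sg 0 c := rfl
      have h2 : ∀ i : ℤ, (T i : AA) = sg i 1 := fun i => rfl
      rw [h1, h2, h2, sg_mul, sg_mul, one_mul, mul_one, add_zero]

theorem tw_tw (y : LL L) : tw B (tw (opp B) y) = y := by
  have hz : ∀ B' : ZGr L, tw B' (0 : LL L) = 0 := by
    intro B'
    unfold tw
    simp
  refine sg_ind (P := fun y : LL L => tw B (tw (opp B) y) = y) ?_ ?_ y
  · intro p q hp hq
    rw [tw_add, tw_add, hp, hq]
  · intro j c
    rw [tw_sg, tw_smul]
    have h1 : (opp B).bt c = ∑ i ∈ ((opp B).fin c).toFinset, sg i ((opp B).p i c) := by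
      conv_lhs => rw [← sum_p (opp B) c, bt_sum]
      apply Finset.sum_congr rfl
      intro i _
      exact bt_p (opp B) i c
    have h2 : ∀ (s : Finset ℤ) (f : ℤ → LL L), tw B (∑ i ∈ s, f i) = ∑ i ∈ s, tw B (f i) := by
      intro s f
      classical
      induction s using Finset.induction_on with
      | empty => simp [hz]
      | insert a s ha ih => rw [Finset.sum_insert ha, Finset.sum_insert ha, tw_add, ih]
    have h3 : tw B ((opp B).bt c) = sg 0 c := by
      rw [h1, h2]
      have h4 : ∀ i : ℤ, tw B (sg i ((opp B).p i c)) = sg 0 ((opp B).p i c) := by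
        intro i
        have h5 : (T i : AA) = sg i 1 := rfl
        rw [tw_sg, opp_p, bt_p, h5, sg_smul, one_smul, add_neg_cancel]
      simp only [h4]
      rw [← sg_sum, sum_p]
    have h6 : (T j : AA) = sg j 1 := rfl
    rw [h3, h6, sg_smul, one_smul, add_zero]

theorem opp_opp : opp (opp B) = B := by
  unfold opp
  simp only [neg_neg]

/-- The twist. -/
noncomputable def twE : LL L ≃ₗ[AA] LL L where
  toFun := tw B
  map_add' := tw_add B
  map_smul' a y := tw_smul B a y
  invFun := tw (opp B)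
  left_inv y := by
    have h := tw_tw (opp B) y
    rw [opp_opp] at h
    exact h
  right_inv y := tw_tw B y

end D

theorem hM0 (h1 : StA0) : StM0 := by
  intro L _ _ _ _ B
  refine ⟨bt_mul B, bt_one B, bt_add B, bt_smul B, C_eq B, ?_, ?_, ?_, evl_bt B, ?_, ?_, ?_⟩
  · intro t y z ht
    exact evl_mul t ht y z
  · intro t y z
    exact evl_add t y z
  · intro t a y ht
    exact evl_smul t ht a y
  · intro t y
    rw [← sg_zero, evl_sg, zpow_zero, one_smul]
  · refine ⟨twE B, fun y => ?_⟩
    change tw B (C y) = B.bt y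
    rw [← sg_zero, tw_sg, T_zero, one_smul]
  · intro t y ht hy
    obtain ⟨w, hw⟩ := div_all t ht y
    refine ⟨w, ?_⟩
    rw [hy, map_zero, zero_add] at hw
    exact hw

end Pool.Agent.Helper16.SI
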