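import Pool.Agent.Helper99.SI.StS

set_option autoImplicit false

/-!
# Project SI, module S3: the Schur complement is invertible iff the operator is injective
-/

namespace Pool.Agent.Helper16.SI

open Pool.Agent.Helper99.SI

variable {H : Type} [NormedAddCommGroup H] [InnerProductSpace ℂ H]
  {ι : Type} [Fintype ι] [DecidableEq ι]

/-- T applied to a combination of the vectors e j + w j. -/
theorem s3_map (e w : ι → H) (T : H →L[ℂ] H) (S : Matrix ι ι ℂ)
    (hT : ∀ j, T (e j + w j) = ∑ i, S i j • e i) (a : ι → ℂ) :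
    T (∑ j, a j • (e j + w j)) = ∑ i, (S.mulVec a) i • e i := by
  rw [map_sum]
  have h1 : ∀ j, T (a j • (e j + w j)) = ∑ i, (S i j * a j) • e i := by
    intro j
    rw [map_smul, hT, Finset.smul_sum]
    apply Finset.sum_congr rfl
    intro i _
    rw [smul_smul, mul_comm]
  simp only [h1]
  rw [Finset.sum_comm]
  apply Finset.sum_congr rfl
  intro i _
  rw [← Finset.sum_smul]
  rfl

/-- Coordinates of a combination of an orthonormal family. -/
theorem s3_coord (e : ι → H) (he : Orthonormal ℂ e) (b : ι → ℂ) (i : ι) :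
    inner ℂ (e i) (∑ j, b j • e j) = b i := by
  rw [he.inner_right_fintype]

/-- Coordinates of a combination of the vectors e j + w j. -/
theorem s3_coord2 (e w : ι → H) (he : Orthonormal ℂ e)
    (hw : ∀ i j, inner ℂ (e i) (w j) = 0) (b : ι → ℂ) (i : ι) :
    inner ℂ (e i) (∑ j, b j • (e j + w j)) = b i := by
  have h1 : ∑ j, b j • (e j + w j) = ∑ j, b j • e j + ∑ j, b j • w j := by
    rw [← Finset.sum_add_distrib]
    apply Finset.sum_congr rfl
    intro j _
    rw [smul_add]
  rw [h1, inner_add_right, s3_coord e he b i, inner_sum]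
  have h2 : ∀ j, inner ℂ (e i) (b j • w j) = 0 := by
    intro j
    rw [inner_smul_right, hw i j, mul_zero]
  simp only [h2, Finset.sum_const_zero, add_zero]

theorem hS3 : StS3 := by
  intro H _ _ _ ι _ _ e he T S hco hS
  obtain ⟨w, hw, hT⟩ := hS
  obtain ⟨c, hc, hcc⟩ := hco
  constructor
  · intro hdet z hz
    have hd0 : ∀ i, inner ℂ (e i) (z - ∑ j, (inner ℂ (e j) z : ℂ) • (e j + w j)) = 0 := by
      intro i
      rw [inner_sub_right, s3_coord2 e w he hw (fun j => inner ℂ (e j) z) i, sub_self]
    have hTd : T (z - ∑ j, (inner ℂ (e j) z : ℂ) • (e j + w j))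
        = - ∑ i, (S.mulVec (fun j => inner ℂ (e j) z)) i • e i := by
      rw [map_sub, hz, s3_map e w T S hT (fun j => inner ℂ (e j) z), zero_sub]
    set d : H := z - ∑ j, (inner ℂ (e j) z : ℂ) • (e j + w j) with hd
    have hin : inner ℂ d (T d) = 0 := by
      rw [hTd, inner_neg_right, inner_sum]
      have h2 : ∀ i, inner ℂ d ((S.mulVec (fun j => inner ℂ (e j) z)) i • e i) = 0 := by
        intro i
        rw [inner_smul_right, ← inner_conj_symm, hd0 i, map_zero, mul_zero]
      simp only [h2, Finset.sum_const_zero, neg_zero]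
    have hdz : d = 0 := by
      have h3 := hcc d hd0
      rw [hin] at h3
      have h4 : ‖d‖ ^ 2 ≤ 0 := by
        have h5 : c * ‖d‖ ^ 2 ≤ 0 := by simpa using h3
        by_contra h6
        have h7 : 0 < c * ‖d‖ ^ 2 := mul_pos hc (not_le.mp h6)
        linarith
      have h8 : ‖d‖ ^ 2 = 0 := le_antisymm h4 (sq_nonneg _)
      exact norm_eq_zero.mp (pow_eq_zero_iff (two_ne_zero)|>.mp h8)
    have hSa : S.mulVec (fun j => inner ℂ (e j) z) = 0 := by
      funext i
      have h9 : ∑ i, (S.mulVec (fun j => inner ℂ (e j) z)) i • e i = 0 := by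
        have h10 : T d = 0 := by rw [hdz, map_zero]
        rw [h10] at hTd
        exact neg_eq_zero.mp hTd.symm
      have h11 := s3_coord e he (S.mulVec (fun j => inner ℂ (e j) z)) i
      rw [h9, inner_zero_right] at h11
      exact h11.symm
    have ha : (fun j => (inner ℂ (e j) z : ℂ)) = 0 := Matrix.eq_zero_of_mulVec_eq_zero hdet hSa
    have hz2 : z = ∑ j, (inner ℂ (e j) z : ℂ) • (e j + w j) := sub_eq_zero.mp hdz
    rw [hz2]
    apply Finset.sum_eq_zero
    intro j _
    rw [show (inner ℂ (e j) z : ℂ) = 0 from congrFun ha j, zero_smul]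
  · intro hinj hdet
    obtain ⟨a, ha0, ha⟩ := Matrix.exists_mulVec_eq_zero_iff.mpr hdet
    apply ha0
    have h1 : T (∑ j, a j • (e j + w j)) = 0 := by
      rw [s3_map e w T S hT a, ha]
      simp
    have h2 := hinj _ h1
    funext i
    have h3 := s3_coord2 e w he hw a i
    rw [h2, inner_zero_right] at h3
    exact h3.symm

end Pool.Agent.Helper16.SI
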